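import Pool.Agent.Work.MP_e5a0e3_pr.Old.PercolatesFour

/-! The earlier statement and the negation of Q1 as instances. -/

namespace Pool.Agent.Work.MP_e5a0e3_pr.Hedge

theorem old_statement :
    ∀ d k : ℕ, 1 ≤ d → k ≤ 2 * d → 128 * d ≤ k * (k - 1) → 0 < theta k d :=
  fun d k hd hk h => Pool.Agent.Results.MP_e5a0e3_pr.PercolatesFour.result d k
    (le_trans (by norm_num) (dim_ge hd hk h)) hk (by omega)

theorem not_Q1 : ¬ ∀ d k : ℕ, 1 ≤ d → 1 ≤ k → k ≤ d → theta k d = 0 := fun h =>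
  (Pool.Agent.Results.MP_e5a0e3_pr.PercolatesFour.result 5 5 (by norm_num) (by norm_num)
    (by norm_num)).ne' (h 5 5 (by norm_num) (by norm_num) le_rfl)

end Pool.Agent.Work.MP_e5a0e3_pr.Hedge
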