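import Pool.Agent.Work.MP_e5a0e3_pr.Lyap

/-! Counting pairs of oriented walks that meet. -/

namespace Pool.Agent.Work.MP_e5a0e3_pr.Hedge

open Finset
open Nat (multinomial multinomial_cons multinomial_congr multinomial_spec factorial_succ factorial_ne_zero)
open scoped Nat

variable {d : ℕ}

/-- The number of pairs of oriented walks of length `m` whose difference cancels `z`. -/
def cnt : ℕ → (Fin d → ℤ) → ℕ
  | 0, z => if z = 0 then 1 else 0
  | m + 1, z => ∑ i, ∑ j, cnt m (z + ev i - ev j)

/-- Sum of the squares of the multinomial coefficients. -/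
def AA2 : ℕ → ℕ → ℕ
  | 0, n => if n = 0 then 1 else 0
  | d + 1, n => ∑ l ∈ range (n + 1), n.choose l ^ 2 * AA2 d l

lemma sq_sum {ι : Type} [DecidableEq ι] (s : Finset ι) (n : ℕ) :
    ∑ x ∈ piAntidiag s n, multinomial s x ^ 2 = AA2 s.card n := by
  induction s using Finset.cons_induction generalizing n with
  | empty => rw [piAntidiag_empty]; split_ifs with h <;> simp [AA2, h]
  | cons i s hi ih =>
    rw [piAntidiag_cons, sum_disjiUnion, card_cons, AA2, ← Finset.Nat.sum_antidiagonal_swap,
      Finset.Nat.sum_antidiagonal_eq_sum_range_succ_mk]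
    refine sum_congr rfl fun l hl => ?_
    have hl := Nat.le_of_lt_succ (mem_range.1 hl)
    rw [sum_map, ← ih, mul_sum]
    refine sum_congr rfl fun x hx => ?_
    obtain ⟨h1, h2⟩ := mem_piAntidiag.1 hx
    have h3 : x i = 0 := by_contra fun h => hi (h2 i h)
    have h4 : ∀ t ∈ s, (addRightEmbedding (fun t => if t = i then n - l else 0) x) t = x t :=
      fun t ht => by simp [ne_of_mem_of_not_mem ht hi]
    simp only [Prod.swap] at h1 ⊢
    rw [multinomial_cons, multinomial_congr h4, sum_congr rfl h4, h1, mul_pow]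
    simp [h3, Nat.sub_add_cancel hl, Nat.choose_symm hl]

open AddMonoidAlgebra in
lemma cnt_zero (m : ℕ) : cnt m (0 : Fin d → ℤ) = AA2 d m := by
  have h1 : ∀ (m : ℕ) (z : Fin d → ℤ), cnt m z = (((∑ i, single (ev i) 1) * ∑ j, single (-ev j) 1 :
      AddMonoidAlgebra ℕ (Fin d → ℤ)) ^ m).coeff (-z) := fun m => by
    induction m with
    | zero => intro z; simp [cnt, one_def, Finsupp.single_apply, eq_comm]
    | succ m ih =>
      intro z
      rw [cnt, pow_succ']
      simp only [ih]
      generalize (_ ^ m : AddMonoidAlgebra ℕ (Fin d → ℤ)) = X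
      rw [sum_mul_sum]
      simp only [sum_mul, coeff_sum, Finsupp.finsetSum_apply, single_mul_single,
        coeff_single_mul_apply, mul_one, one_mul]
      exact sum_congr rfl fun i _ => sum_congr rfl fun j _ => congrArg _ (by abel)
  have h2 : ∀ (x : Fin d → ℕ) (t : Fin d), (∑ i, x i • ev i) t = x t := fun x t => by
    simp [ev, Pi.single_apply]
  have h3 := sq_sum (univ : Finset (Fin d)) m
  rw [card_univ, Fintype.card_fin] at h3
  rw [h1, mul_pow, sum_pow_eq_sum_piAntidiag, sum_pow_eq_sum_piAntidiag, sum_mul_sum, ← h3]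
  simp only [single_pow, prod_single, one_pow, prod_const_one, natCast_def, single_mul_single,
    coeff_sum, Finsupp.finsetSum_apply, coeff_single, Finsupp.single_apply, mul_one, zero_add,
    Nat.cast_id, neg_zero, smul_neg, sum_neg_distrib, add_neg_eq_zero]
  refine sum_congr rfl fun x hx => ?_
  rw [sum_eq_single_of_mem x hx fun y _ hy => if_neg fun h => hy (funext fun t => ?_), if_pos rfl, sq]
  have := congrFun h t
  rw [h2, h2] at this
  exact_mod_cast this.symm

/-- A lower bound for products of factorials. -/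
def MM (d n : ℕ) : ℕ := ∏ t ∈ range n, (t / d + 1)

lemma MM_le (n : ℕ) (x : Fin d → ℕ) (hx : ∑ i, x i = n) : MM d n ≤ ∏ i, (x i)! := by
  induction n generalizing x with
  | zero => exact Nat.one_le_iff_ne_zero.2 (prod_ne_zero_iff.2 fun i _ => factorial_ne_zero _)
  | succ n ih =>
    obtain ⟨i, hi⟩ : ∃ i, n / d < x i := by
      by_contra h
      have h1 := sum_le_card_nsmul univ x _ fun i _ => not_lt.1 (not_exists.1 h i)
      rw [card_univ, Fintype.card_fin, smul_eq_mul, hx] at h1
      have := Nat.mul_div_le n d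
      omega
    obtain ⟨y, hy⟩ : ∃ y, x i = y + 1 := Nat.exists_eq_succ_of_ne_zero (Nat.ne_zero_of_lt hi)
    have h1 := ih (Function.update x i y) (by
      rw [sum_update_of_mem (mem_univ i)]
      rw [← add_sum_erase _ _ (mem_univ i), erase_eq] at hx
      omega)
    rw [← mul_prod_erase _ _ (mem_univ i), Function.update_self,
      prod_congr rfl fun j hj => by rw [Function.update_of_ne (ne_of_mem_erase hj)]] at h1
    rw [MM, prod_range_succ, ← mul_prod_erase _ _ (mem_univ i), hy, factorial_succ, mul_assoc,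
      mul_comm]
    exact Nat.mul_le_mul (by omega) h1

lemma AA2_le (d n : ℕ) : AA2 d n * MM d n ≤ d ^ n * n ! := by
  have h3 := sq_sum (univ : Finset (Fin d)) n
  have h4 := sum_pow_eq_sum_piAntidiag (univ : Finset (Fin d)) (fun _ => (1 : ℕ)) n
  simp only [card_univ, Fintype.card_fin, sum_const, smul_eq_mul, mul_one, one_pow,
    Nat.cast_id, prod_const_one] at h3 h4
  rw [← h3, h4, sum_mul, sum_mul]
  refine sum_le_sum fun x hx => ?_
  have h1 := (mem_piAntidiag.1 hx).1
  have h2 := multinomial_spec univ x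
  rw [h1] at h2
  rw [sq, mul_assoc, ← h2, mul_comm (∏ i, _)]
  exact Nat.mul_le_mul_left _ (Nat.mul_le_mul_left _ (MM_le n x h1))

end Pool.Agent.Work.MP_e5a0e3_pr.Hedge
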