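import Pool.Agent.Work.MP_e5a0e3_pr.Hedge.Count

/-! Bounds for the expected number of meetings of two oriented walks. -/

namespace Pool.Agent.Work.MP_e5a0e3_pr.Hedge

open Finset
open scoped Nat

variable {d : ℕ}

/-- The probability that two oriented walks meet at time `n`. -/
noncomputable def uu (d n : ℕ) : ℝ := AA2 d n / ((d : ℝ) ^ 2) ^ n

/-- The largest multinomial probability. -/
noncomputable def mm (d n : ℕ) : ℝ := n ! / ((d : ℝ) ^ n * MM d n)

lemma MM_pos (d n : ℕ) : 0 < MM d n := prod_pos fun _ _ => Nat.succ_pos _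

lemma uu_le (hd : 0 < d) (n : ℕ) : uu d n ≤ mm d n := by
  have h1 : (0 : ℝ) < d := by exact_mod_cast hd
  have h2 : (0 : ℝ) < MM d n := by exact_mod_cast MM_pos d n
  have h3 : (AA2 d n : ℝ) * MM d n ≤ d ^ n * n ! := by exact_mod_cast AA2_le d n
  rw [uu, mm, div_le_div_iff₀ (by positivity) (by positivity), ← pow_mul, mul_comm 2 n, pow_mul]
  nlinarith [mul_le_mul_of_nonneg_left h3 (pow_pos h1 n).le]

lemma mm_pos (hd : 0 < d) (n : ℕ) : 0 < mm d n := by
  have h2 := MM_pos d n
  unfold mm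
  positivity

lemma mm_succ (hd : 0 < d) (n : ℕ) :
    mm d (n + 1) = mm d n * ((n + 1) / (d * ((n / d : ℕ) + 1))) := by
  have h2 := MM_pos d n
  have e : MM d (n + 1) = MM d n * (n / d + 1) := prod_range_succ _ _
  rw [mm, mm, e, Nat.factorial_succ, pow_succ]
  push_cast
  field_simp

lemma mm_anti (hd : 0 < d) : Antitone (mm d) := antitone_nat_of_succ_le fun n => by
  rw [mm_succ hd]
  refine mul_le_of_le_one_right (mm_pos hd n).le (div_le_one_of_le₀ ?_ (by positivity))
  exact_mod_cast Nat.lt_mul_div_succ n hd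

lemma mm_add (hd : 0 < d) (q : ℕ) {r : ℕ} (hr : r ≤ d) :
    mm d (d * q + r) = mm d (d * q) * ∏ j ∈ range r, ((d * q + j + 1 : ℝ) / (d * (q + 1))) := by
  induction r with
  | zero => simp
  | succ r ih =>
    rw [← add_assoc, mm_succ hd, ih (by omega), prod_range_succ, mul_assoc, Nat.mul_add_div hd,
      Nat.div_eq_of_lt hr]
    push_cast
    rw [add_zero]

lemma mm_block (hd : 4 ≤ d) (q : ℕ) :
    mm d (d * (q + 1)) ≤ mm d (d * q) * ((2 * q + 1) / (2 * q + 2)) ^ 3 := by
  obtain ⟨e, rfl⟩ : ∃ e, d = e + 1 := ⟨d - 1, by omega⟩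
  rw [mul_add, mul_one, mm_add (by omega) q le_rfl, prod_range_succ]
  refine mul_le_mul_of_nonneg_left ?_ (mm_pos (by omega) _).le
  have h1 : ((e + 1 : ℕ) * q + e + 1 : ℝ) / ((e + 1 : ℕ) * (q + 1)) = 1 := by
    push_cast
    field_simp
    ring
  rw [h1, mul_one]
  refine le_trans ?_ (pow_le_pow_of_le_one (n := e) (by positivity)
    (div_le_one_of_le₀ (by linarith) (by positivity)) (by omega))
  refine (pow_le_pow_iff_left₀ (by positivity) (by positivity) two_ne_zero).1 ?_
  rw [sq, ← pow_mul, mul_comm e 2, pow_mul]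
  nth_rewrite 2 [← prod_range_reflect]
  rw [← prod_mul_distrib]
  refine (prod_le_prod (fun _ _ => by positivity) (g := fun _ => ((2 * q + 1) / (2 * q + 2) : ℝ) ^ 2)
    fun j hj => ?_).trans_eq (by rw [prod_const, card_range])
  have hj := mem_range.1 hj
  obtain ⟨l, rfl⟩ : ∃ l, e = j + l + 1 := ⟨e - 1 - j, by omega⟩
  rw [show j + l + 1 - 1 - j = l by omega, div_mul_div_comm, div_pow,
    div_le_div_iff₀ (by positivity) (by positivity)]
  push_cast
  nlinarith [sq_nonneg (((j : ℝ) - l) * (q + 1))]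

/-- The bound for the Green function. -/
noncomputable def GB (d q : ℕ) : ℝ := ∑ n ∈ range (d * q), uu d n + d * (2 * q + 2) * mm d (d * q)

lemma GB_anti (hd : 4 ≤ d) : Antitone (GB d) := antitone_nat_of_succ_le fun q => by
  have h0 : 0 < d := by omega
  have h1 : ∑ r ∈ range d, uu d (d * q + r) ≤ d * mm d (d * q) := by
    have := sum_le_card_nsmul (range d) (fun r => uu d (d * q + r)) _ fun r _ =>
      (uu_le h0 _).trans (mm_anti h0 (Nat.le_add_right (d * q) r))
    rwa [card_range, nsmul_eq_mul] at this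
  have h2 : (2 * (q + 1) + 2 : ℝ) * ((2 * q + 1) / (2 * q + 2)) ^ 3 ≤ 2 * q + 1 := by
    rw [div_pow, ← mul_div_assoc, div_le_iff₀ (by positivity)]
    have : (0 : ℝ) ≤ q := by positivity
    nlinarith [mul_nonneg this this]
  have h3 := mul_le_mul_of_nonneg_left (mm_block hd q)
    (by positivity : (0 : ℝ) ≤ d * (2 * (q + 1) + 2))
  have h4 := mul_le_mul_of_nonneg_left h2 (mul_nonneg d.cast_nonneg (mm_pos h0 (d * q)).le)
  rw [GB, GB]
  nth_rewrite 1 [mul_add, mul_one]
  rw [sum_range_add]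
  push_cast
  nlinarith

lemma sum_le_GB (hd : 4 ≤ d) (q N : ℕ) : ∑ n ∈ range N, uu d n ≤ GB d q := by
  refine le_trans ?_ (GB_anti hd (Nat.le_add_right q N))
  refine le_add_of_le_of_nonneg (sum_le_sum_of_subset_of_nonneg (range_mono (by nlinarith))
    fun n _ _ => by unfold uu; positivity) ?_
  have := mm_pos (by omega : 0 < d) (d * (q + N))
  positivity

/-- A convolution with running binomial coefficient. -/
def go (n : ℕ) : List ℕ → ℕ → ℕ → ℕ
  | [], _, _ => 0
  | h :: t, l, c => c ^ 2 * h + go n t (l + 1) (c * (n - l) / (l + 1))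

/-- The table of `AA2`. -/
def row (N : ℕ) : ℕ → List ℕ
  | 0 => (List.range N).map fun n => if n = 0 then 1 else 0
  | d + 1 => (List.range N).map fun n => go n (row N d) 0 1

lemma go_eq (n : ℕ) (f : ℕ → ℕ) (m l : ℕ) : go n ((List.range' l m).map f) l (n.choose l) =
    ∑ i ∈ range m, n.choose (l + i) ^ 2 * f (l + i) := by
  induction m generalizing l with
  | zero => rfl
  | succ m ih =>
    rw [List.range'_succ, List.map_cons, go, ← Nat.choose_succ_right_eq,
      Nat.mul_div_cancel _ l.succ_pos, ih, sum_range_succ', add_comm]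
    simp only [add_assoc, add_comm 1, add_zero]

lemma row_eq (N d : ℕ) : row N d = (List.range N).map (AA2 d) := by
  induction d with
  | zero => rfl
  | succ d ih =>
    refine List.map_congr_left fun n hn => ?_
    have h := go_eq n (AA2 d) N 0
    rw [Nat.choose_zero_right, ← List.range_eq_range'] at h
    rw [ih, h, AA2]
    simp only [zero_add]
    refine (sum_subset (range_mono (List.mem_range.1 hn)) fun i _ hi => ?_).symm
    rw [Nat.choose_eq_zero_of_lt (not_lt.1 fun h => hi (mem_range.2 h)), zero_pow two_ne_zero,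
      zero_mul]

lemma horner (hd : 0 < d) (N : ℕ) : (((List.range N).map (AA2 d)).foldl
    (fun a x => (a + x) * d ^ 2) 0 : ℕ) = (∑ n ∈ range N, uu d n) * ((d : ℝ) ^ 2) ^ N := by
  induction N with
  | zero => simp
  | succ N ih =>
    rw [List.range_succ, List.map_append, List.foldl_append, sum_range_succ, uu]
    simp only [List.map_cons, List.map_nil, List.foldl_cons, List.foldl_nil]
    push_cast
    rw [ih]
    field_simp
    ring

/-- The numerical test. -/
def chk (d q A B : ℕ) : Prop :=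
  ((row (d * q) d).foldl (fun a x => (a + x) * d ^ 2) 0 * MM d (d * q) +
    d * (2 * q + 2) * (d * q)! * d ^ (d * q)) * A < B * ((d ^ 2) ^ (d * q) * MM d (d * q))

instance (d q A B : ℕ) : Decidable (chk d q A B) := Nat.decLt _ _

lemma chk_GB (hd : 0 < d) {q A B : ℕ} (h : chk d q A B) : GB d q * A < B := by
  have h1 : (0 : ℝ) < d := by exact_mod_cast hd
  have h2 : (0 : ℝ) < MM d (d * q) := by exact_mod_cast MM_pos d _
  rw [chk, row_eq, ← Nat.cast_lt (α := ℝ)] at h
  push_cast at h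
  rw [horner hd] at h
  refine lt_of_mul_lt_mul_right (h.trans_eq' ?_) (by positivity)
  rw [GB, mm, ← pow_mul, mul_comm 2, pow_mul]
  field_simp

lemma chk4 : chk 4 10 9 20 := by decide +kernel
lemma chk5 : chk 5 22 7 10 := by decide +kernel
lemma chk6 : chk 6 5 9 12 := by decide +kernel
lemma chk7 : chk 7 2 11 14 := by decide +kernel
lemma chk8 : chk 8 2 13 16 := by decide +kernel
lemma chk9 : chk 9 2 15 18 := by decide +kernel

lemma GB_big (hd : 10 ≤ d) : GB d 1 * (2 * d - 3) < 2 * d := by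
  have h0 : 0 < d := by omega
  have h1 : (10 : ℝ) ≤ d := by exact_mod_cast hd
  have hm : ∀ r ≤ d, mm d r = r ! / d ^ r := fun r hr => by
    rw [mm, MM, prod_eq_one fun t ht => by
      rw [Nat.div_eq_of_lt ((mem_range.1 ht).trans_le hr), zero_add], Nat.cast_one, mul_one]
  obtain ⟨e, he⟩ : ∃ e, d = 4 + e := ⟨d - 4, by omega⟩
  have h2 : ∑ n ∈ range (4 + e), uu d n ≤ ∑ n ∈ range 4, mm d n + e * mm d 4 := by
    rw [sum_range_add]
    refine add_le_add (sum_le_sum fun n _ => uu_le h0 n) ?_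
    have := sum_le_card_nsmul (range e) (fun r => uu d (4 + r)) _ fun r _ =>
      (uu_le h0 _).trans (mm_anti h0 (Nat.le_add_right 4 r))
    rwa [card_range, nsmul_eq_mul] at this
  have h3 := mul_le_mul_of_nonneg_left (mm_anti h0 (by omega : 6 ≤ d))
    (by positivity : (0 : ℝ) ≤ d * (2 * (1 : ℕ) + 2))
  have h4 : (e : ℝ) = d - 4 := by rw [he]; push_cast; ring
  rw [← he, h4] at h2
  refine (mul_le_mul_of_nonneg_right (c := ∑ n ∈ range 4, mm d n + (d - 4) * mm d 4 +
    d * (2 * (1 : ℕ) + 2) * mm d 6) ?_ (by linarith)).trans_lt ?_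
  · rw [GB, mul_one]
    linarith
  simp only [sum_range_succ, sum_range_zero]
  rw [hm 0 (by omega), hm 1 (by omega), hm 2 (by omega), hm 3 (by omega), hm 4 (by omega),
    hm 6 (by omega)]
  obtain ⟨t, ht, e⟩ : ∃ t : ℝ, 0 ≤ t ∧ (d : ℝ) = t + 10 := ⟨d - 10, by linarith, by ring⟩
  rw [e, ← sub_pos]
  simp only [Nat.factorial]
  push_cast
  field_simp
  ring_nf
  positivity

lemma green (hd : 4 ≤ d) {k : ℕ} (hk : 4 * d ≤ k * (k - 1)) : ∃ G : ℝ,
    (∀ N, ∑ n ∈ range N, uu d n ≤ G) ∧ (2 * d * (2 * d - 1) / (k * (k - 1) : ℕ) - 1) * G < d := by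
  have h1 : (4 : ℝ) ≤ d := by exact_mod_cast hd
  have h0 : ∀ q, 0 ≤ GB d q := fun q => by simpa using sum_le_GB hd q 0
  rcases hd.eq_or_lt with rfl | h5
  · have h2 : 5 ≤ k := by
      by_contra h
      have : k * (k - 1) ≤ 4 * 3 := Nat.mul_le_mul (by omega) (by omega)
      omega
    have h3 : (20 : ℝ) ≤ (k * (k - 1) : ℕ) := by
      exact_mod_cast (Nat.mul_le_mul h2 (by omega : 4 ≤ k - 1))
    have h4 := chk_GB (by omega) chk4
    refine ⟨_, sum_le_GB hd 10, (mul_le_mul_of_nonneg_right (c := 9 / 5) ?_ (h0 _)).trans_lt ?_⟩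
    · rw [sub_le_iff_le_add, div_le_iff₀ (by linarith)]
      push_cast at h3 ⊢
      linarith
    · push_cast at h4 ⊢
      linarith
  obtain ⟨q, hq⟩ : ∃ q, GB d q * (2 * d - 3) < 2 * d := by
    rcases le_or_gt 10 d with h | h
    · exact ⟨_, GB_big h⟩
    interval_cases d
    · exact ⟨_, by have := chk_GB (by omega) chk5; push_cast at this ⊢; linarith⟩
    · exact ⟨_, by have := chk_GB (by omega) chk6; push_cast at this ⊢; linarith⟩
    · exact ⟨_, by have := chk_GB (by omega) chk7; push_cast at this ⊢; linarith⟩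
    · exact ⟨_, by have := chk_GB (by omega) chk8; push_cast at this ⊢; linarith⟩
    · exact ⟨_, by have := chk_GB (by omega) chk9; push_cast at this ⊢; linarith⟩
  have h3 : (4 * d : ℝ) ≤ (k * (k - 1) : ℕ) := by exact_mod_cast hk
  refine ⟨_, sum_le_GB hd q,
    (mul_le_mul_of_nonneg_right (c := ((2 * d - 3) / 2 : ℝ)) ?_ (h0 q)).trans_lt ?_⟩
  · rw [sub_le_iff_le_add, div_le_iff₀ (by linarith)]
    nlinarith
  · linarith

end Pool.Agent.Work.MP_e5a0e3_pr.Hedge
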