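import Pool.Agent.Work.MP_e5a0e3_pr.Main
import Pool.Agent.Work.MP_e5a0e3_pr.Hedge.Green

/-! Second moment over oriented paths with a weight for each shared edge. -/

namespace Pool.Agent.Work.MP_e5a0e3_pr.Hedge

open MeasureTheory ProbabilityTheory Finset Filter Topology

variable {d n k : ℕ}

/-- The probability that `j` given neighbours are chosen. -/
noncomputable def ff (d k j : ℕ) : ℝ := (k.choose j : ℝ) / (2 * d).choose j

lemma site_val (hk : k ≤ 2 * d) (x : Fin d → ℤ) {T : Finset (Fin d → ℤ)} (hT : T ⊆ nb x)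
    (h : T.card ≤ k) : (site k x).real {s | T ⊆ s} = ff d k T.card := by
  classical
  have e : (↑(powersetCard k (nb x)) : Set (Finset (Fin d → ℤ))) ∩ {s | T ⊆ s} =
      ↑((powersetCard k (nb x)).filter (T ⊆ ·)) := by
    ext s
    simp only [Set.mem_inter_iff, mem_coe, mem_filter, Set.mem_ofPred_eq]
  have h1 := Nat.choose_pos hk
  have h2 := Nat.choose_pos (h.trans hk)
  unfold site
  rw [site_eq, Measure.real, ← uniformOn_inter_self (finite_toSet _), e, uniformOn_apply_finset,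
    inter_eq_right.mpr (filter_subset _ _), card_filter_powersetCard_subset _ _ _ hT h,
    card_powersetCard, card_nb, ENNReal.toReal_div, ENNReal.toReal_natCast, ENNReal.toReal_natCast,
    ff, div_eq_div_iff (by positivity) (by positivity)]
  exact_mod_cast ((mul_comm _ _).trans (Nat.choose_mul h).symm).trans (mul_comm _ _)

lemma ff_succ (hk : k ≤ 2 * d) {j : ℕ} (hj : j < k) :
    ff d k (j + 1) = ff d k j * ((k - j) / (2 * d - j)) := by
  have h1 : (k.choose (j + 1) : ℝ) * (j + 1) = k.choose j * (k - j) := by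
    rw [← Nat.cast_sub hj.le]
    exact_mod_cast Nat.choose_succ_right_eq k j
  have h2 : ((2 * d).choose (j + 1) : ℝ) * (j + 1) = (2 * d).choose j * (2 * d - j) := by
    have : (2 * d - j : ℝ) = (2 * d - j : ℕ) := by rw [Nat.cast_sub (hj.le.trans hk)]; simp
    rw [this]
    exact_mod_cast Nat.choose_succ_right_eq (2 * d) j
  rw [ff, ff, div_mul_div_comm, ← h1, ← h2, mul_div_mul_right _ _ (by positivity)]

lemma pair_abs {f : ℕ → ℝ} {r0 r1 r2 r3 α : ℝ} (h0 : f 0 = 1) (h1 : f 1 = f 0 * r0)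
    (h2 : f 2 = f 1 * r1) (h3 : f 3 = f 2 * r2) (h4 : f 4 = f 3 * r3) (a3 : 0 ≤ r3) (a2 : r3 ≤ r2)
    (a1 : r2 ≤ r1) (a0 : r1 ≤ r0) (hα : 0 ≤ α) (e : α ^ 2 * f 2 = 1) {i j s u : ℕ} (hi : i ≤ 2)
    (hj : j ≤ 2) (si : s ≤ i) (sj : s ≤ j) (hu : u + s = i + j) : f u ≤ f i * f j * α ^ s := by
  rw [h0, one_mul] at h1
  rw [h1] at h2
  rw [h2] at h3 e
  rw [h3] at h4
  have b2 : 0 ≤ r2 := a3.trans a2
  have b1 : 0 ≤ r1 := b2.trans a1
  have b0 : 0 ≤ r0 := b1.trans a0
  have c0 := mul_nonneg b0 b1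
  have k1 : 1 ≤ r0 * α := abs_le_of_sq_le_sq' (by
    nlinarith [mul_le_mul_of_nonneg_left a0 (mul_nonneg (sq_nonneg α) b0)]) (by positivity) |>.2
  have k2 : r2 ≤ r0 * r1 * α := abs_le_of_sq_le_sq' (by
    have : (r0 * r1 * α) ^ 2 = r0 * r1 := by linear_combination r0 * r1 * e
    nlinarith) (by positivity) |>.2
  have k3 : r2 * r3 ≤ r0 * r1 := mul_le_mul (a1.trans a0) (a2.trans a1) a3 b0
  obtain rfl : u = i + j - s := by omega
  interval_cases i <;> interval_cases j <;> interval_cases s <;>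
    simp only [Nat.reduceAdd, Nat.reduceSub, h0, h1, h2, h3, h4, pow_zero, pow_one, mul_one,
      one_mul, le_refl]
  · exact mul_le_mul_of_nonneg_left a0 b0
  · nlinarith [mul_le_mul_of_nonneg_left k1 b0]
  · nlinarith [mul_le_mul_of_nonneg_left (a1.trans a0) c0]
  · nlinarith [mul_le_mul_of_nonneg_left k1 c0]
  · exact mul_le_mul_of_nonneg_left (a1.trans a0) c0
  · nlinarith [mul_le_mul_of_nonneg_left k1 c0]
  · nlinarith [mul_le_mul_of_nonneg_left k3 c0]
  · nlinarith [mul_le_mul_of_nonneg_left k2 c0]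
  · nlinarith [congrArg (r0 * r1 * ·) e]

lemma ff_two (hk : k ≤ 2 * d) (h4 : 4 ≤ k) :
    ff d k 2 = (k * (k - 1) : ℕ) / (2 * d * (2 * d - 1)) := by
  rw [ff_succ hk (by omega : 1 < k), ff_succ hk (by omega : 0 < k), Nat.cast_mul,
    Nat.cast_sub (by omega)]
  simp [ff, div_mul_div_comm]

lemma site_pair (hk : k ≤ 2 * d) (h4 : 4 ≤ k) {α : ℝ} (hα : 0 ≤ α) (e : α ^ 2 * ff d k 2 = 1)
    (x : Fin d → ℤ) {T S : Finset (Fin d → ℤ)} (hT : T ⊆ nb x) (hS : S ⊆ nb x) (h1 : T.card ≤ 2)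
    (h2 : S.card ≤ 2) : (site k x).real {s | T ∪ S ⊆ s} ≤
      (site k x).real {s | T ⊆ s} * (site k x).real {s | S ⊆ s} * α ^ (T ∩ S).card := by
  have h3 := card_union_add_card_inter T S
  have k1 : (4 : ℝ) ≤ k := by exact_mod_cast h4
  have k2 : (k : ℝ) ≤ 2 * d := by exact_mod_cast hk
  have h5 : ∀ j : ℕ, j < 3 → ((k - (j + 1 : ℕ)) / (2 * d - (j + 1 : ℕ)) : ℝ) ≤
      (k - j) / (2 * d - j) := fun j hj => by
    have : (j : ℝ) < 3 := by exact_mod_cast hj
    push_cast
    rw [div_le_div_iff₀ (by linarith) (by linarith)]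
    nlinarith
  rw [site_val hk x (union_subset hT hS) (by omega), site_val hk x hT (by omega),
    site_val hk x hS (by omega)]
  exact pair_abs (by simp [ff]) (ff_succ hk (by omega)) (ff_succ hk (by omega))
    (ff_succ hk (by omega)) (ff_succ hk (by omega))
    (div_nonneg (by push_cast; linarith) (by push_cast; linarith)) (h5 2 (by omega))
    (h5 1 (by omega)) (h5 0 (by omega)) hα e h1 h2 (card_le_card inter_subset_left)
    (card_le_card inter_subset_right) h3

lemma TT_inter (a b : Fin n → Fin d) (S : Finset (Fin d → ℤ)) :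
    ∑ x ∈ S, (TT a x ∩ TT b x).card ≤ 2 * ((range n).filter fun t =>
      0 + pos a t - pos b t = 0 ∧ 0 + pos a (t + 1) - pos b (t + 1) = 0).card := by
  simp only [zero_add, sub_eq_zero]
  set E := (range n).filter fun t => pos a t = pos b t ∧ pos a (t + 1) = pos b (t + 1) with hE
  have h : ∀ x, TT a x ∩ TT b x ⊆ (E.filter fun t => pos a t = x).image (fun t => pos a (t + 1)) ∪
      (E.filter fun t => pos a (t + 1) = x).image (pos a) := fun x y hy => by
    simp only [TT, hE, mem_inter, mem_union, mem_image, mem_filter, mem_range] at hy ⊢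
    obtain ⟨⟨t, ⟨ht, h1⟩, h2⟩ | ⟨t, ⟨ht, h1⟩, h2⟩, ⟨s, ⟨hs, h3⟩, h4⟩ | ⟨s, ⟨hs, h3⟩, h4⟩⟩ := hy <;>
      have e1 := time_eq a b (by omega) (by omega) (h1.trans h3.symm) <;>
      have e2 := time_eq a b (by omega) (by omega) (h2.trans h4.symm)
    · subst e1
      exact Or.inl ⟨t, ⟨⟨ht, h1.trans h3.symm, h2.trans h4.symm⟩, h1⟩, h2⟩
    · omega
    · omega
    · subst e2
      exact Or.inr ⟨t, ⟨⟨ht, h2.trans h4.symm, h1.trans h3.symm⟩, h1⟩, h2⟩
  refine (sum_le_sum fun x _ => (card_le_card (h x)).trans ((card_union_le _ _).trans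
    (Nat.add_le_add card_image_le card_image_le))).trans ?_
  rw [sum_add_distrib, sum_card_fiberwise_eq_card_filter, sum_card_fiberwise_eq_card_filter, two_mul]
  exact Nat.add_le_add (card_filter_le _ _) (card_filter_le _ _)

lemma AA_pair (hk : k ≤ 2 * d) (h4 : 4 ≤ k) {α : ℝ} (hα : 1 ≤ α) (e : α ^ 2 * ff d k 2 = 1)
    (a b : Fin n → Fin d) :
    (law d k).real (AA a ∩ AA b) ≤ (law d k).real (AA a) * (law d k).real (AA b) *
      ∏ t ∈ range n, if 0 + pos a t - pos b t = 0 ∧ 0 + pos a (t + 1) - pos b (t + 1) = 0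
        then α ^ 2 else 1 := by
  have e1 : AA a ∩ AA b = Set.pi ↑(VV a ∪ VV b) fun x => {s | TT a x ∪ TT b x ⊆ s} := by
    rw [AA_eq a (subset_union_left (s₂ := VV b)), AA_eq b (subset_union_right (s₁ := VV a))]
    ext ω
    simp only [Set.mem_inter_iff, Set.mem_pi, Set.mem_ofPred_eq, union_subset_iff]
    exact ⟨fun h x hx => ⟨h.1 x hx, h.2 x hx⟩, fun h => ⟨fun x hx => (h x hx).1,
      fun x hx => (h x hx).2⟩⟩
  rw [← prod_filter, prod_const, ← pow_mul]
  refine le_trans ?_ (mul_le_mul_of_nonneg_left (pow_le_pow_right₀ hα (TT_inter a b (VV a ∪ VV b)))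
    (mul_nonneg measureReal_nonneg measureReal_nonneg))
  rw [e1, AA_eq a (subset_union_left (s₂ := VV b)), AA_eq b (subset_union_right (s₁ := VV a)),
    law_pi hk, law_pi hk, law_pi hk, ← prod_pow_eq_pow_sum, ← prod_mul_distrib, ← prod_mul_distrib]
  exact prod_le_prod (fun _ _ => measureReal_nonneg) fun x _ => site_pair hk h4 (by linarith) e x
    (TT_subset a x) (TT_subset b x) (TT_card a x) (TT_card b x)

/-- The weighted count of pairs of paths. -/
noncomputable def VW (c : ℝ) (n : ℕ) (z : Fin d → ℤ) : ℝ :=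
  ∑ a : Fin n → Fin d, ∑ b : Fin n → Fin d, ∏ t ∈ range n,
    if z + pos a t - pos b t = 0 ∧ z + pos a (t + 1) - pos b (t + 1) = 0 then c else 1

lemma VW_succ (c : ℝ) (n : ℕ) (z : Fin d → ℤ) :
    VW c (n + 1) z = ∑ i, ∑ j, (if z = 0 ∧ z + ev i - ev j = 0 then c else 1) *
      VW c n (z + ev i - ev j) := by
  unfold VW
  rw [sum_cons]
  refine sum_congr rfl fun i _ => ?_
  simp only [sum_cons, mul_sum]
  rw [sum_comm]
  refine sum_congr rfl fun j _ => sum_congr rfl fun a _ => sum_congr rfl fun b _ => ?_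
  have : ∀ t, z + (ev i + pos a t) - (ev j + pos b t) = z + ev i - ev j + pos a t - pos b t :=
    fun t => by abel
  rw [prod_range_succ', mul_comm]
  simp only [pos_cons, this, pos_zero, add_zero, sub_zero]

/-- The truncated Green function. -/
noncomputable def gg (n : ℕ) (z : Fin d → ℤ) : ℝ := ∑ m ∈ range n, cnt m z / ((d : ℝ) ^ 2) ^ m

lemma gg_succ (hd : 0 < d) (n : ℕ) (z : Fin d → ℤ) :
    ∑ i, ∑ j, gg n (z + ev i - ev j) = d ^ 2 * (gg (n + 1) z - if z = 0 then 1 else 0) := by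
  rw [gg, sum_range_succ', cnt]
  simp only [gg, cnt, Nat.cast_sum, Nat.cast_ite, Nat.cast_one, Nat.cast_zero, pow_zero, div_one,
    add_sub_cancel_right, mul_sum, sum_div]
  rw [sum_comm (s := range n)]
  refine sum_congr rfl fun i _ => ?_
  rw [sum_comm (s := range n)]
  refine sum_congr rfl fun j _ => sum_congr rfl fun m _ => ?_
  rw [pow_succ _ m]
  field_simp

lemma VW_le (hd : 0 < d) {c G L : ℝ} (hc : 1 ≤ c) (hL : 0 ≤ L)
    (hG : ∀ n, gg n (0 : Fin d → ℤ) ≤ G) (h : (c - 1) * (1 + L * G) ≤ d * L) (n : ℕ)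
    (z : Fin d → ℤ) : VW c n z ≤ ((d : ℝ) ^ 2) ^ n * (1 + L * gg n z) := by
  induction n generalizing z with
  | zero => simp [VW, gg]
  | succ n ih =>
    have h1 : ∀ i j, (if z = 0 ∧ z + ev i - ev j = 0 then c else 1) * VW c n (z + ev i - ev j) ≤
        ((d : ℝ) ^ 2) ^ n * (1 + L * gg n (z + ev i - ev j) +
          if j = i then (if z = 0 then d * L else 0) else 0) := fun i j => by
      have h2 := ih (z + ev i - ev j)
      by_cases h3 : z = 0 ∧ z + ev i - ev j = 0
      · have h4 : j = i := ev_injective (by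
          have := h3.2
          rwa [h3.1, zero_add, sub_eq_zero, eq_comm] at this)
        rw [if_pos h3, if_pos h4, if_pos h3.1]
        refine (mul_le_mul_of_nonneg_left h2 (by linarith)).trans ?_
        rw [h3.2, mul_left_comm]
        refine mul_le_mul_of_nonneg_left ?_ (by positivity)
        nlinarith [mul_le_mul_of_nonneg_left (hG n) (mul_nonneg (sub_nonneg.2 hc) hL)]
      · rw [if_neg h3, one_mul]
        refine h2.trans (mul_le_mul_of_nonneg_left (le_add_of_nonneg_right ?_) (by positivity))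
        split_ifs <;> positivity
    rw [VW_succ]
    refine (sum_le_sum fun i _ => sum_le_sum fun j _ => h1 i j).trans_eq ?_
    simp only [← mul_sum, sum_add_distrib, sum_ite_eq', mem_univ, if_true, gg_succ hd, sum_const,
      card_univ, Fintype.card_fin, nsmul_eq_mul]
    split_ifs <;> ring

lemma theta_of (hk : k ≤ 2 * d) {K : ℝ} (hK : 0 < K)
    (h : ∀ n, K ≤ (law d k).real (⋃ a : Fin n → Fin d, AA a)) : 0 < theta k d := by
  have := law_prob hk
  set U : ℕ → Set ((Fin d → ℤ) → Finset (Fin d → ℤ)) := fun n => ⋃ a : Fin n → Fin d, AA a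
  set C : ℕ → Set ((Fin d → ℤ) → Finset (Fin d → ℤ)) := fun n => ⋃ m, ⋃ _ : n ≤ m, U m
  have hCm : ∀ n, MeasurableSet (C n) := fun n =>
    MeasurableSet.iUnion fun m => MeasurableSet.iUnion fun _ => MeasurableSet.iUnion AA_meas
  have hanti : Antitone C := fun m n hmn => Set.biUnion_subset_biUnion_left fun l hl => hmn.trans hl
  have hlow : ∀ n, ENNReal.ofReal K ≤ law d k (C n) := fun n => by
    refine le_trans ?_ (measure_mono (s := U n) fun ω hω =>
      Set.mem_iUnion.mpr ⟨n, Set.mem_iUnion.mpr ⟨le_rfl, hω⟩⟩)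
    rw [ENNReal.ofReal_le_iff_le_toReal (measure_ne_top _ _)]
    exact h n
  have hge := ge_of_tendsto' (tendsto_measure_iInter_atTop (μ := law d k)
    (fun n => (hCm n).nullMeasurableSet) hanti ⟨0, measure_ne_top _ _⟩) hlow
  refine (ENNReal.ofReal_pos.mpr hK).trans_le (hge.trans (measure_mono fun N hN => ?_))
  refine Set.Infinite.of_image lev (Set.infinite_of_forall_exists_gt fun z => ?_)
  obtain ⟨m, hm⟩ := Set.mem_iUnion.mp (Set.mem_iInter.mp hN (z.toNat + 1))
  obtain ⟨hm, h⟩ := Set.mem_iUnion.mp hm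
  obtain ⟨a, ha⟩ := Set.mem_iUnion.mp h
  refine ⟨m, ⟨pos a m, AA_reach a ha le_rfl, lev_pos a le_rfl⟩, by omega⟩

theorem theta_pos4 (hd : 4 ≤ d) (hk : k ≤ 2 * d) (hdk : 4 * d ≤ k * (k - 1)) : 0 < theta k d := by
  have := law_prob hk
  have : Nonempty (Fin d) := ⟨⟨0, by omega⟩⟩
  have h4 : 4 ≤ k := by
    by_contra h
    have : k * (k - 1) ≤ 3 * 2 := Nat.mul_le_mul (by omega) (by omega)
    omega
  obtain ⟨G, hG, h1⟩ := green hd hdk
  have hG' : ∀ n, gg n (0 : Fin d → ℤ) ≤ G := fun n => by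
    simp only [gg, cnt_zero]
    exact hG n
  have G0 : 0 ≤ G := by simpa using hG 0
  have d4 : (4 : ℝ) ≤ d := by exact_mod_cast hd
  have k0 : (0 : ℝ) < (k * (k - 1) : ℕ) := by exact_mod_cast (by omega : 0 < k * (k - 1))
  have k1 : ((k * (k - 1) : ℕ) : ℝ) ≤ 2 * d * (2 * d - 1) := by
    have h : k * (k - 1) ≤ 2 * d * (2 * d - 1) := Nat.mul_le_mul hk (by omega)
    rw [← Nat.cast_le (α := ℝ), Nat.cast_mul (2 * d), Nat.cast_sub (by omega : 1 ≤ 2 * d)] at h
    simpa using h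
  obtain ⟨c, hc⟩ : ∃ c : ℝ, c = 2 * d * (2 * d - 1) / (k * (k - 1) : ℕ) := ⟨_, rfl⟩
  have c1 : 1 ≤ c := hc ▸ (one_le_div k0).2 k1
  have e : √c ^ 2 * ff d k 2 = 1 := by
    have : (0 : ℝ) < 2 * d - 1 := by linarith
    rw [Real.sq_sqrt (by linarith), ff_two hk h4, hc]
    field_simp
  rw [← hc, ← sub_pos] at h1
  obtain ⟨L, hL⟩ : ∃ L, L = (c - 1) / (d - (c - 1) * G) := ⟨_, rfl⟩
  have L0 : 0 ≤ L := hL ▸ div_nonneg (by linarith) h1.le
  have K0 : 0 < 1 + L * G := by positivity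
  refine theta_of hk (one_div_pos.2 K0) fun n => second_moment (law d k) AA AA_meas (fun a => ?_) _
    (AA_pair hk h4 (Real.one_le_sqrt.2 c1) e) K0 ?_
  · rw [AA, law_pi hk]
    refine prod_pos fun x _ => ?_
    have h2 := TT_card a x
    have h3 := Nat.choose_pos (by omega : (TT a x).card ≤ k)
    have h5 := Nat.choose_pos (by omega : (TT a x).card ≤ 2 * d)
    rw [site_val hk x (TT_subset a x) (by omega), ff]
    positivity
  have h := VW_le (by omega) c1 L0 hG' (by
    rw [eq_div_iff h1.ne'] at hL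
    linarith) n 0
  rw [Real.sq_sqrt (by linarith), Fintype.card_fun, Fintype.card_fin, Fintype.card_fin,
    Nat.cast_pow, ← pow_mul, mul_comm n, pow_mul, mul_comm]
  exact h.trans (mul_le_mul_of_nonneg_left (by nlinarith [hG' n]) (by positivity))

end Pool.Agent.Work.MP_e5a0e3_pr.Hedge
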